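import Mathlib
import Pool.Agent.Run7.h251.SP.Inp
import Pool.Agent.Run7.h251.SP.One
import Pool.Agent.Run7.h251.SP.Dig
import Pool.Agent.Run7.h251.SP.Riv

set_option autoImplicit false

/-!
# One prime in Rivera's windows of several numbers

Uses project MK of this run (systems at prime arguments, `Run7.h18.MK.sysp_fin`).
-/

open Finset Filter Topology MeasureTheory

namespace Pool.Agent.Results.MP_b454d1_nt.CommonRiveraPrime

/-- The number of the residues `r` modulo `p` for which `p` divides the product of `r` and the `a_i - r`. -/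
def rootCount {k : ℕ} (a : Fin k → ℕ) (p : ℕ) : ℕ :=
  ((range p).filter (fun r : ℕ => (p : ℤ) ∣ (r : ℤ) * ∏ i, ((a i : ℤ) - (r : ℤ)))).card

/-- The partial product of the singular series of the tuple `a`, over the primes `p ≤ z`. -/
noncomputable def series {k : ℕ} (a : Fin k → ℕ) (z : ℕ) : ℝ :=
  ∏ p ∈ (Icc 1 z).filter Nat.Prime, (1 - (rootCount a p : ℝ) / p) / (1 - 1 / (p : ℝ)) ^ (k + 1)

/-- The sum of `log p` times the product of the `log (a_i - p)` over the primes `p` with `y < p ≤ y'` for which all the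
`a_i - p` are primes. -/
noncomputable def count {k : ℕ} (a : Fin k → ℕ) (y y' : ℕ) : ℝ :=
  ∑ p ∈ (Ioc y y').filter (fun p : ℕ => p.Prime ∧ ∀ i, (a i - p).Prime), Real.log p * ∏ i, Real.log ((a i - p : ℕ) : ℝ)

/-- The largest coordinate. -/
def top {k : ℕ} (a : Fin k → ℕ) : ℕ := univ.sup a

/-- `(y, y']` is a window for the number `M` : `M ^ (1/3 + δ) ≤ y' ≤ M ^ (1 - δ)`. -/
def Window (δ : ℝ) (M y y' : ℕ) : Prop := y ≤ y' ∧ (M : ℝ) ^ (1 / 3 + δ) ≤ y' ∧ (y' : ℝ) ≤ (M : ℝ) ^ (1 - δ)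

/-- The asymptotic formula in all windows: the singular series of `a` converges, and if `h` is its sum and `M` the largest
coordinate, then for ALL windows the primes `p` of `(y, y']` for which all `a_i - p` are primes, counted with the
logarithms, number `h (y' - y)` up to `y' / (log M) ^ W`. -/
def Formula {k : ℕ} (δ : ℝ) (W : ℕ) (a : Fin k → ℕ) : Prop :=
  ∃ h : ℝ, Tendsto (series a) atTop (𝓝 h) ∧ ∀ y y' : ℕ, Window δ (top a) y y' →
    |count a y y' - h * ((y' : ℝ) - y)| ≤ y' / Real.log (top a) ^ W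

/-- No prime divides the product of `r` and the `a_i - r` for all `r`. -/
def Admissible {k : ℕ} (a : Fin k → ℕ) : Prop := ∀ p : ℕ, p.Prime → rootCount a p < p

/-- In ALL windows `(y, y']` of length at least `y' / (log M) ^ W` there is a prime `p` such that all the `a_i - p` are
primes. -/
def CommonPrime {k : ℕ} (δ : ℝ) (W : ℕ) (a : Fin k → ℕ) : Prop := ∀ y y' : ℕ, Window δ (top a) y y' →
  (y' : ℝ) / Real.log (top a) ^ W ≤ (y' : ℝ) - y → ∃ p ∈ Ioc y y', p.Prime ∧ ∀ i, (a i - p).Prime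

/-- ONE prime `p` is in the windows `(√a_i, 4 √a_i)` of all coordinates, and all the `a_i - p` are primes. -/
def Rivera {k : ℕ} (a : Fin k → ℕ) : Prop :=
  ∃ p : ℕ, p.Prime ∧ ∀ i, Real.sqrt (a i) < p ∧ (p : ℝ) < 4 * Real.sqrt (a i) ∧ (a i - p).Prime

/-- The tuple `a` is good: the asymptotic formula; if `a` is admissible, a common prime in all windows; and if no coordinate
is larger than `15` times another one, then also in Rivera's windows. -/
def Good {k : ℕ} (δ : ℝ) (W : ℕ) (a : Fin k → ℕ) : Prop :=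
  Formula δ W a ∧ (Admissible a → CommonPrime δ W a ∧ ((∀ i j, a i ≤ 15 * a j) → Rivera a))

/-- `q ≥ 1`, and the rational tuple `p / q` approximates `α` up to `(log q)^T / q^(1 + 1/d)` in all coordinates. -/
def GoodApproximation (d T : ℕ) (α : Fin d → ℝ) (p : Fin d → ℤ) (q : ℕ) : Prop :=
  1 ≤ q ∧ ∀ i, |α i - p i / q| ≤ Real.log q ^ T / (q : ℝ) ^ (1 + 1 / (d : ℝ))

/-- The tuple `m q, m |p_1|, ..., m |p_d|`. -/
def multiple {d : ℕ} (m : ℕ) (p : Fin d → ℤ) (q : ℕ) : Fin (d + 1) → ℕ :=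
  fun i => m * (Fin.cons q (fun i => (p i).natAbs) : Fin (d + 1) → ℕ) i

theorem sparse_good (k : ℕ) (hk : 1 ≤ k) (δ : ℝ) (hδ : 0 < δ) (W : ℕ) :
    Run7.h251.SP.Sparse k (fun a => Good δ W a) := by
  obtain ⟨M₀, hM₀⟩ := Run7.h251.SP.exists_common k W δ
  obtain ⟨M₁, hM₁⟩ := Run7.h251.SP.rivera k
  apply Run7.h251.SP.sparse_imp hk (Run7.h251.SP.sparse_and (Run7.h251.SP.sparse_good k hk δ hδ (W + 1))
    (Run7.h251.SP.sparse_good k hk (1 / 12) (by norm_num) 2)) (M₀ + M₁ + 3)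
  rintro a ha ⟨h1, h2⟩
  refine ⟨?_, fun hadm => ⟨fun y y' hw hlen => ?_, fun hbal => ?_⟩⟩
  · obtain ⟨h, g1, g2⟩ := Run7.h251.SP.good_mono (by omega) h1
    exact ⟨h, g1, fun y y' hw => g2 y y' hw.1 hw.2.1 hw.2.2⟩
  · exact hM₀ a hadm h1 (by omega) y y' hw.1 hw.2.1 hw.2.2 hlen
  · exact hM₁ a (by omega) hadm h2 hbal

/-- **One prime in Rivera's windows of several numbers.** Let `δ > 0`.

(1) For every `k` there is `c > 0` such that the sum of the singular series of an admissible `k`-tuple, if the series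
converges, is at least `c`.

(2) For all `k ≥ 1`, `W`, `A` and all large `X`, all but at most `X ^ k / (log X) ^ A` of the tuples `a` of integers of
`[1, X]` are good: the asymptotic formula for the number of the primes `p` with all `a_i - p` prime holds in all windows; if
`a` is admissible, then there is such a prime in all windows of length at least `y' / (log M) ^ W`, and if moreover no
coordinate is larger than `15` times another one, there is ONE prime `p` with `√a_i < p < 4 √a_i` and `a_i - p` prime for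
all `i`.

(3) For every `d ≥ 1` and almost every real tuple `α` of length `d`, for all but finitely many of the good approximations
`p / q` of `α` and all `1 ≤ m ≤ (log q) ^ T` the tuple `m q, m |p_1|, ..., m |p_d|` is good, and it is admissible if
all primes `l ≤ d + 2` divide `m`.

(4) For every sequence `λ_n ≥ exp (n ^ ε)`, `ε > 0`, and almost every real tuple `x`: for all but finitely many `n` ALL
tuples `a` of positive integers with `|a_i - λ_n |x_i|| ≤ (log λ_n) ^ T` for all `i` are good. -/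
theorem result (δ : ℝ) (hδ : 0 < δ) :
    (∀ k : ℕ, ∃ c : ℝ, 0 < c ∧ ∀ (a : Fin k → ℕ) (h : ℝ), Admissible a → Tendsto (series a) atTop (𝓝 h) → c ≤ h) ∧
    (∀ k W A : ℕ, 1 ≤ k → ∃ X₀ : ℕ, ∀ X : ℕ, X₀ ≤ X → ∀ E : Finset (Fin k → ℕ),
      (∀ a ∈ E, (∀ i, 1 ≤ a i ∧ a i ≤ X) ∧ ¬ Good δ W a) → (E.card : ℝ) ≤ (X : ℝ) ^ k / Real.log X ^ A) ∧
    (∀ d W T : ℕ, 1 ≤ d → ∀ᵐ α : Fin d → ℝ, {z : (Fin d → ℤ) × ℕ | GoodApproximation d T α z.1 z.2 ∧
      ∃ m : ℕ, 1 ≤ m ∧ (m : ℝ) ≤ Real.log z.2 ^ T ∧ ¬ (Good δ W (multiple m z.1 z.2) ∧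
        ((∀ l : ℕ, l.Prime → l ≤ d + 2 → l ∣ m) → Admissible (multiple m z.1 z.2)))}.Finite) ∧
    (∀ (k W T : ℕ) (ε : ℝ) (lam : ℕ → ℝ), 1 ≤ k → 0 < ε → (∀ n : ℕ, Real.exp ((n : ℝ) ^ ε) ≤ lam n) →
      ∀ᵐ x : Fin k → ℝ, ∀ᶠ n : ℕ in atTop, ∀ a : Fin k → ℕ, (∀ i, 1 ≤ a i) →
        (∀ i, |((a i : ℝ) - lam n * |x i|)| ≤ Real.log (lam n) ^ T) → Good δ W a) := by
  refine ⟨fun k => ?_, fun k W A hk => sparse_good k hk δ hδ W A, fun d W T hd => ?_, fun k W T ε lam hk hε hlam => ?_⟩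
  · exact ⟨Run7.h251.SP.low k, Run7.h251.SP.low_pos k, fun a h h1 h2 => Run7.h251.SP.low_le a h2 h1⟩
  · filter_upwards [Run7.h251.SP.vec hd _ (sparse_good (d + 1) (by omega) δ hδ W) T] with α hα
    apply hα.subset
    rintro ⟨p, q⟩ ⟨h1, m, hm1, hm2, hno⟩
    exact ⟨h1, m, hm1, hm2, fun hP => hno ⟨hP, fun hl => Run7.h251.SP.tup_dvd p q hl⟩⟩
  · exact Run7.h251.SP.near_seq _ (sparse_good k hk δ hδ W) ε hε lam hlam T

end Pool.Agent.Results.MP_b454d1_nt.CommonRiveraPrime
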