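import Pool.Agent.Run7.h560.AP.Bridge

set_option autoImplicit false

/-!
# Goldbach representations with a small summand whose digits are restricted, for every even integer
-/

namespace Pool.Agent.Results.MP_b454d1_nt.DigitWindows

open Finset
open Pool.Agent.Run7.h560.AP

/-- the largest power of `b` which is at most `y` -/
def pw (b y : ℕ) : ℕ := b ^ Nat.log b y

/-- `y < n < 4 y` and the last `m` base-`b` digits of `n` lie in `S`, where `b ^ m ≤ y < b ^ (m + 1)`. -/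
def Window (b : ℕ) (S : Finset ℕ) (y n : ℕ) : Prop := y < n ∧ n < 4 * y ∧ n % pw b y ∈ digitSet b S

lemma log_pw (b y : ℕ) (hb : 2 ≤ b) (hy : b ^ 2 ≤ y) : b ≤ pw b y ∧ pw b y ≤ y ∧ y < b * pw b y ∧ 0 < Real.log (pw b y) ∧
    Real.log (pw b y) ≤ Real.log y ∧ Real.log y ≤ 2 * Real.log (pw b y) := by
  have hy0 : y ≠ 0 := by
    have : 0 < b ^ 2 := by positivity
    omega
  have h1 : pw b y ≤ y := Nat.pow_log_le_self b hy0
  have h2 : y < b * pw b y := by
    have := Nat.lt_pow_succ_log_self (by omega : 1 < b) y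
    unfold pw
    rw [Nat.succ_eq_add_one, pow_succ] at this
    rw [mul_comm]
    exact this
  have h3 : b ≤ pw b y := by
    unfold pw
    apply Nat.le_self_pow
    have : 2 ≤ Nat.log b y := Nat.le_log_of_pow_le (by omega) hy
    omega
  have hL0 : (2 : ℝ) ≤ pw b y := by exact_mod_cast hb.trans h3
  have hy1 : (0 : ℝ) < y := by exact_mod_cast Nat.pos_of_ne_zero hy0
  refine ⟨h3, h1, h2, Real.log_pos (by linarith), Real.log_le_log (by linarith) (by exact_mod_cast h1), ?_⟩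
  have e1 : (2 : ℝ) * Real.log (pw b y) = Real.log ((pw b y : ℝ) ^ 2) := by rw [Real.log_pow]; norm_num
  rw [e1]
  apply Real.log_le_log hy1
  have h4 : y ≤ pw b y ^ 2 := by
    calc y ≤ b * pw b y := h2.le
      _ ≤ pw b y * pw b y := Nat.mul_le_mul_right _ h3
      _ = _ := (sq _).symm
  exact_mod_cast h4

lemma coprime_shift (x : ℤ) (b m d : ℕ) (hm : 1 ≤ m) (h : IsCoprime x (b : ℤ)) : IsCoprime (x + d * (b : ℤ) ^ m) (b : ℤ) := by
  obtain ⟨m', rfl⟩ : ∃ m', m = m' + 1 := ⟨m - 1, by omega⟩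
  have e : x + d * (b : ℤ) ^ (m' + 1) = x + (b : ℤ) * (d * (b : ℤ) ^ m') := by rw [pow_succ]; ring
  rw [e]
  exact h.add_mul_left_left _

lemma coprime_shift' (x : ℤ) (b m d : ℕ) (hm : 1 ≤ m) (h : IsCoprime x (b : ℤ)) : IsCoprime (x - d * (b : ℤ) ^ m) (b : ℤ) := by
  obtain ⟨m', rfl⟩ : ∃ m', m = m' + 1 := ⟨m - 1, by omega⟩
  have e : x - d * (b : ℤ) ^ (m' + 1) = x + (b : ℤ) * (-(d * (b : ℤ) ^ m')) := by rw [pow_succ]; ring
  rw [e]
  exact h.add_mul_left_left _

/-- **Main theorem.** -/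
theorem result (b : ℕ) (hb : 2 ≤ b) (S : Finset ℕ) (h0 : 0 ∈ S) (h1 : 1 ∈ S) :
    (∃ (C : ℝ) (y₀ : ℕ), 0 < C ∧ ∀ y N : ℕ, y₀ ≤ y → 4 * y ≤ N → Even N →
      (Set.ncard {p : ℕ | Window b S y p ∧ p.Prime ∧ (N - p).Prime} : ℝ) ≤
        C * below (digitSet b S) (pw b y) * ((N : ℝ) / Nat.totient N) / Real.log y ^ 2) ∧
    (∀ D : ℕ, ∃ (R : ℕ) (η c : ℝ) (y₀ : ℕ), 0 < η ∧ 0 < c ∧ ∀ y N : ℕ, y₀ ≤ y → 4 * y ≤ N → N ≤ y ^ D → Even N →
      (∃ e ∈ S, e < b ∧ Nat.Coprime e b ∧ Nat.Coprime (N - e) b) →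
        c * below (digitSet b S) (pw b y) * ((N : ℝ) / Nat.totient N) / Real.log y ^ 2 ≤
          (Set.ncard {n : ℕ | Window b S y n ∧ Almost R ((y : ℝ) ^ η) n ∧ Almost R ((y : ℝ) ^ η) (N - n)} : ℝ)) := by
  classical
  have hS := digits_growth b hb S h0 h1
  refine ⟨?_, fun D => ?_⟩
  · obtain ⟨C, N₀, hC, h⟩ := pair_upper b hb (dfa S) hS
    refine ⟨(4 * b : ℕ) * (C * 4), b * N₀ + b ^ 2 + 1, by positivity, fun y N hy hyN hN => ?_⟩
    obtain ⟨a1, a2, a3, a4, a5, a6⟩ := log_pw b y hb (by omega)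
    obtain ⟨L, hL⟩ : ∃ L, L = pw b y := ⟨_, rfl⟩
    rw [← hL] at a1 a2 a3 a4 a5 a6
    have hLN : N₀ ≤ L := by
      by_contra hcon
      have : b * L ≤ b * N₀ := Nat.mul_le_mul_left _ (by omega)
      omega
    have hL0 : 0 < L := by omega
    have hly : 0 < Real.log y := lt_of_lt_of_le a4 a5
    -- the pieces
    obtain ⟨x, hx⟩ : ∃ x : ℝ, x = cnt b (dfa S) L (fun _ => True) := ⟨_, rfl⟩
    have hx0 : 0 ≤ x := by rw [hx]; positivity
    obtain ⟨ra, hra⟩ : ∃ ra : ℝ, ra = (N : ℝ) / Nat.totient N := ⟨_, rfl⟩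
    have hra0 : 0 ≤ ra := by rw [hra]; positivity
    have hpiece : ∀ d : ℕ, (cnt b (dfa S) L (fun n => ((n : ℤ) + (d * L : ℕ)).natAbs.Prime ∧ (((N : ℤ) - (d * L : ℕ)) - n).natAbs.Prime) : ℝ) ≤
        C * 4 * x * ra / Real.log y ^ 2 := by
      intro d
      have h2 := h L hLN ((d * L : ℕ) : ℤ) ((N : ℤ) - (d * L : ℕ)) N (by ring) (by omega) hN
      rw [← hx, ← hra] at h2
      refine h2.trans ?_
      have h3 : 0 ≤ C * x * ra := by positivity
      have h4 : Real.log y ^ 2 ≤ 4 * Real.log L ^ 2 := by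
        have := pow_le_pow_left₀ hly.le a6 2
        nlinarith
      calc C * x * ra / Real.log L ^ 2 = C * 4 * x * ra / (4 * Real.log L ^ 2) := by field_simp
        _ ≤ _ := div_le_div_of_nonneg_left (by positivity) (by positivity) h4
    obtain ⟨A, hA⟩ : ∃ A : Finset ℕ, A = (range (4 * y)).filter (fun p => Window b S y p ∧ p.Prime ∧ (N - p).Prime) := ⟨_, rfl⟩
    have hAn : Set.ncard {p : ℕ | Window b S y p ∧ p.Prime ∧ (N - p).Prime} = A.card := by
      rw [← Set.ncard_coe_finset]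
      congr 1
      ext p
      rw [hA, mem_coe, mem_filter, mem_range, Set.mem_ofPred_eq]
      constructor
      · intro hp
        exact ⟨hp.1.2.1, hp⟩
      · intro hp
        exact hp.2
    have hmap : ∀ p ∈ A, p / L ∈ range (4 * b) := by
      intro p hp
      rw [hA, mem_filter, mem_range] at hp
      rw [mem_range, Nat.div_lt_iff_lt_mul hL0]
      calc p < 4 * y := hp.1
        _ ≤ 4 * (b * L) := Nat.mul_le_mul_left _ a3.le
        _ = 4 * b * L := by ring
    have hfib : ∀ d ∈ range (4 * b), ((A.filter (fun p => p / L = d)).card : ℝ) ≤ C * 4 * x * ra / Real.log y ^ 2 := by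
      intro d _
      refine le_trans ?_ (hpiece d)
      rw [Nat.cast_le, cnt_cs]
      apply card_le_card_of_injOn (fun p => p % L)
      · intro p hp
        rw [mem_coe, mem_filter, hA, mem_filter, mem_range] at hp
        obtain ⟨⟨b1, b2, b3, b4⟩, b5⟩ := hp
        rw [mem_coe, mem_cs]
        have e1 : d * L + p % L = p := by
          rw [← b5, mul_comm]
          exact Nat.div_add_mod p L
        have hmem : Nat.digits b (p % L) ∈ (dfa S).accepts := by
          have h5 := b2.2.2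
          rw [← hL, digit_auto] at h5
          exact h5
        refine ⟨Nat.mod_lt _ hL0, hmem, ?_, ?_⟩
        · have e2 : (((p % L : ℕ) : ℤ) + (d * L : ℕ)) = (p : ℤ) := by
            rw [← Nat.cast_add, add_comm, e1]
          simp only [e2, Int.natAbs_natCast]
          exact b3
        · have e2 : (((N : ℤ) - (d * L : ℕ)) - ((p % L : ℕ) : ℤ)) = ((N - p : ℕ) : ℤ) := by
            rw [Nat.cast_sub (by omega)]
            have : ((d * L + p % L : ℕ) : ℤ) = p := by rw [e1]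
            rw [Nat.cast_add] at this
            linarith
          simp only [e2, Int.natAbs_natCast]
          exact b4
      · intro p hp p' hp' hpp
        rw [mem_coe, mem_filter] at hp hp'
        simp only at hpp
        rw [← Nat.div_add_mod p L, ← Nat.div_add_mod p' L, hp.2, hp'.2, hpp]
    rw [hAn, digit_auto, below_cnt, ← hL, ← hx, ← hra]
    have h5 := card_eq_sum_card_fiberwise hmap
    rw [h5]
    push_cast
    refine (sum_le_sum hfib).trans ?_
    rw [sum_const, card_range, nsmul_eq_mul]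
    apply le_of_eq
    push_cast
    ring
  · obtain ⟨R, η, c₀, N₀, hη, hc₀, h⟩ := pair_lower b hb S h0 h1 (2 * D + 4)
    refine ⟨R, η / 2, c₀, b * N₀ + b ^ 2 + 1, by positivity, hc₀, fun y N hy hyN hND hN he => ?_⟩
    obtain ⟨a1, a2, a3, a4, a5, a6⟩ := log_pw b y hb (by omega)
    obtain ⟨L, hL⟩ : ∃ L, L = pw b y := ⟨_, rfl⟩
    rw [← hL] at a1 a2 a3 a4 a5 a6
    have hLN : N₀ ≤ L := by
      by_contra hcon
      have : b * L ≤ b * N₀ := Nat.mul_le_mul_left _ (by omega)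
      omega
    have hL0 : 0 < L := by omega
    have hly : 0 < Real.log y := lt_of_lt_of_le a4 a5
    obtain ⟨e, heS, heb, he1, he2⟩ := he
    obtain ⟨d, hd⟩ : ∃ d, d = y / L + 1 := ⟨_, rfl⟩
    have hd1 : y < d * L := by
      rw [hd, mul_comm]
      exact Nat.lt_mul_div_succ y hL0
    have hd2 : d * L ≤ y + L := by
      rw [hd, add_mul, one_mul]
      exact Nat.add_le_add_right (Nat.div_mul_le_self y L) L
    have hyL : y ≤ L ^ 2 := by
      calc y ≤ b * L := a3.le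
        _ ≤ L * L := Nat.mul_le_mul_right _ a1
        _ = _ := (sq _).symm
    have hNL : N ≤ L ^ (2 * D) := by
      calc N ≤ y ^ D := hND
        _ ≤ (L ^ 2) ^ D := Nat.pow_le_pow_left hyL D
        _ = _ := (pow_mul L 2 D).symm
    have hm1 : 1 ≤ Nat.log b y := by
      have : 2 ≤ Nat.log b y := Nat.le_log_of_pow_le (by omega) (by omega : b ^ 2 ≤ y)
      omega
    have hLb : (L : ℤ) = (b : ℤ) ^ Nat.log b y := by
      rw [hL]
      unfold pw
      push_cast
      rfl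
    have hLD : L ^ 2 ≤ L ^ (2 * D + 4) := Nat.pow_le_pow_right hL0 (by omega)
    have hLD' : L ^ (2 * D) ≤ L ^ (2 * D + 4) := Nat.pow_le_pow_right hL0 (by omega)
    have h2 := h L hLN ((d * L : ℕ) : ℤ) ((N : ℤ) - (d * L : ℕ)) N (by ring) (by omega) hN (by
        rw [Int.natAbs_natCast]
        have : L ^ 3 ≤ L ^ (2 * D + 4) := Nat.pow_le_pow_right hL0 (by omega)
        have h3 : y + L ≤ L ^ 2 * L := by nlinarith
        calc d * L ≤ y + L := hd2
          _ ≤ L ^ 2 * L := h3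
          _ = L ^ 3 := by ring
          _ ≤ _ := this) (by
        have e1 : ((N : ℤ) - (d * L : ℕ)) = ((N - d * L : ℕ) : ℤ) := by rw [Nat.cast_sub (by omega)]
        rw [e1, Int.natAbs_natCast]
        omega) ⟨e, heS, heb, by
          have e1 : ((e : ℤ) + (d * L : ℕ)) = e + d * (b : ℤ) ^ Nat.log b y := by rw [Nat.cast_mul, hLb]
          rw [e1]
          exact coprime_shift _ b _ d hm1 (Nat.isCoprime_iff_coprime.2 he1), by
          have e1 : (((N : ℤ) - (d * L : ℕ)) - e) = ((N - e : ℕ) : ℤ) - d * (b : ℤ) ^ Nat.log b y := by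
            rw [Nat.cast_mul, hLb, Nat.cast_sub (by omega)]
            ring
          rw [e1]
          exact coprime_shift' _ b _ d hm1 (Nat.isCoprime_iff_coprime.2 he2)⟩
    have h3 : cnt b (dfa S) L (fun n => ((n : ℤ) + (d * L : ℕ) ≠ 0 ∧ ((n : ℤ) + (d * L : ℕ)).natAbs.primeFactorsList.length ≤ R ∧
        ((N : ℤ) - (d * L : ℕ)) - n ≠ 0 ∧ (((N : ℤ) - (d * L : ℕ)) - n).natAbs.primeFactorsList.length ≤ R) ∧
        ∀ p : ℕ, p.Prime → (p : ℤ) ∣ (n : ℤ) + (d * L : ℕ) ∨ (p : ℤ) ∣ ((N : ℤ) - (d * L : ℕ)) - n → (L : ℝ) ^ η < p) ≤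
        Set.ncard {n : ℕ | Window b S y n ∧ Almost R ((y : ℝ) ^ (η / 2)) n ∧ Almost R ((y : ℝ) ^ (η / 2)) (N - n)} := by
      rw [cnt_cs, ← Set.ncard_coe_finset]
      refine Set.ncard_le_ncard_of_injOn (fun r => d * L + r) ?_ ?_ (fin_lt (4 * y) _ (fun n hn => hn.1.2.1))
      · intro r hr
        rw [mem_coe, mem_cs] at hr
        obtain ⟨b1, b2, ⟨b3, b4, b5, b6⟩, b7⟩ := hr
        have e1 : ((r : ℤ) + (d * L : ℕ)) = ((d * L + r : ℕ) : ℤ) := by push_cast; ring
        have e2 : (((N : ℤ) - (d * L : ℕ)) - r) = ((N - (d * L + r) : ℕ) : ℤ) := by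
          rw [Nat.cast_sub (by omega)]
          push_cast
          ring
        rw [e1] at b3 b4
        rw [e2] at b5 b6
        rw [e1, e2] at b7
        rw [Int.natAbs_natCast] at b4 b6
        have hpow : (y : ℝ) ^ (η / 2) ≤ (L : ℝ) ^ η := by
          have hLy : (y : ℝ) ≤ (L : ℝ) ^ 2 := by exact_mod_cast hyL
          calc (y : ℝ) ^ (η / 2) ≤ ((L : ℝ) ^ 2) ^ (η / 2) := Real.rpow_le_rpow (Nat.cast_nonneg _) hLy (by positivity)
            _ = (L : ℝ) ^ η := by
                rw [← Real.rpow_natCast, ← Real.rpow_mul (Nat.cast_nonneg _)]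
                congr 1
                push_cast
                ring
        refine ⟨⟨by omega, by omega, ?_⟩, ⟨by exact_mod_cast b3, b4, fun p hp hpd => ?_⟩, ⟨by exact_mod_cast b5, b6, fun p hp hpd => ?_⟩⟩
        · rw [← hL, Nat.mul_add_mod', Nat.mod_eq_of_lt b1, digit_auto]
          exact b2
        · exact lt_of_le_of_lt hpow (b7 p hp (Or.inl (Int.natCast_dvd_natCast.2 hpd)))
        · exact lt_of_le_of_lt hpow (b7 p hp (Or.inr (Int.natCast_dvd_natCast.2 hpd)))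
      · intro r _ r' _ hrr
        simp only at hrr
        omega
    rw [digit_auto, below_cnt, ← hL]
    have h4 : c₀ * (cnt b (dfa S) L (fun _ => True) : ℝ) * ((N : ℝ) / Nat.totient N) / Real.log y ^ 2 ≤
        c₀ * (cnt b (dfa S) L (fun _ => True) : ℝ) * ((N : ℝ) / Nat.totient N) / Real.log L ^ 2 := by
      apply div_le_div_of_nonneg_left (by positivity) (by positivity)
      exact pow_le_pow_left₀ a4.le a5 2
    have h5 : (cnt b (dfa S) L (fun n => ((n : ℤ) + (d * L : ℕ) ≠ 0 ∧ ((n : ℤ) + (d * L : ℕ)).natAbs.primeFactorsList.length ≤ R ∧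
        ((N : ℤ) - (d * L : ℕ)) - n ≠ 0 ∧ (((N : ℤ) - (d * L : ℕ)) - n).natAbs.primeFactorsList.length ≤ R) ∧
        ∀ p : ℕ, p.Prime → (p : ℤ) ∣ (n : ℤ) + (d * L : ℕ) ∨ (p : ℤ) ∣ ((N : ℤ) - (d * L : ℕ)) - n → (L : ℝ) ^ η < p) : ℝ) ≤
        (Set.ncard {n : ℕ | Window b S y n ∧ Almost R ((y : ℝ) ^ (η / 2)) n ∧ Almost R ((y : ℝ) ^ (η / 2)) (N - n)} : ℝ) := by
      rw [Nat.cast_le]
      exact h3
    exact h4.trans (h2.trans h5)

end Pool.Agent.Results.MP_b454d1_nt.DigitWindows
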