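import Pool.Agent.Run7.h620.PD.PairT

set_option autoImplicit false

/-!
# Goldbach's problem with a palindrome of two digits near the square root

`n` runs over the palindromes with `K` base `b` digits, all of them `e` or `f`; the integer `m` is arbitrary with
`|m| ≤ b ^ (L K)` (for instance `b ^ (2 K - 2) ≤ m`, so that `n` is of the order of the square root of `m`).
The pairs `n`, `m - n` are counted: from below those with a bounded number of prime factors, from above the prime
ones, in both cases with the expected order of magnitude, singular series included, uniformly in `m`.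

Proof: level of distribution of the palindromes with two digits (balanced digits of all fractions with
denominators up to `exp (c K)` are counted at once), a residue class modulo a fixed number in which neither `n` nor
`m - n` is divisible by a high power of a small prime, the fundamental lemma, Mertens.
-/

namespace Pool.Agent.Results.MP_b454d1_nt.PalindromesNearSquareRoot

open Finset Filter

/-- `n` has exactly `K` base `b` digits, all of them `e` or `f`, and they read the same backwards. -/
def Pal (b e f K n : ℕ) : Prop :=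
  (Nat.digits b n).length = K ∧ (Nat.digits b n).reverse = Nat.digits b n ∧ ∀ d ∈ Nat.digits b n, d = e ∨ d = f

/-- `∏ (1 + 1 / p)` over the primes `p` dividing `m`. -/
noncomputable def sigma (m : ℤ) : ℝ := ∏ p ∈ m.natAbs.primeFactors, (1 + 1 / (p : ℝ))

open Classical in
/-- **Sums of a two-digit palindrome and another number, both almost prime, for every integer.** -/
theorem result : ∀ b : ℕ, 2 ≤ b → ∀ e f : ℕ, e < b → f < b → e ≠ 0 → f ≠ e → ∀ L : ℕ, 1 ≤ L →
    ∃ c C : ℝ, 0 < c ∧ 0 < C ∧ ∃ r : ℕ, ∀ᶠ K : ℕ in atTop, ∀ m : ℤ, m ≠ 0 → |m| ≤ (b : ℤ) ^ (L * K) →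
      c * sigma m * (2 : ℝ) ^ ((K : ℝ) / 2) / (K : ℝ) ^ 2 ≤
        (((Finset.range (b ^ K)).filter (fun n : ℕ => Pal b e f K n ∧ n.primeFactorsList.length ≤ r ∧
          m - n ≠ 0 ∧ (m - n).natAbs.primeFactorsList.length ≤ r)).card : ℝ) ∧
      (((Finset.range (b ^ K)).filter (fun n : ℕ => Pal b e f K n ∧ n.Prime ∧ (m - n).natAbs.Prime)).card : ℝ) ≤
        C * sigma m * (2 : ℝ) ^ ((K : ℝ) / 2) / (K : ℝ) ^ 2 := by
  intro b hb e f he hf he0 hef L hL
  obtain ⟨c, hc, r, h1⟩ := Pool.Agent.Run7.h620.PD.pair_low b hb e f he hf he0 hef (-1) (by norm_num) L hL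
  obtain ⟨C, hC, h2⟩ := Pool.Agent.Run7.h620.PD.pair_up b hb e f hef (-1) (by norm_num)
  refine ⟨c, C, hc, hC, r, ?_⟩
  filter_upwards [h1, h2] with K hK1 hK2 m hm hmb
  have hm' : m.natAbs ≤ b ^ (L * K) := by
    have h3 : ((m.natAbs : ℕ) : ℤ) ≤ ((b ^ (L * K) : ℕ) : ℤ) := by
      rw [Int.natCast_natAbs]
      push_cast
      exact hmb
    exact_mod_cast h3
  have h3 := hK1 m hm hm'
  have h4 := hK2 m hm
  have h5 : ∀ n : ℕ, -1 * (n : ℤ) + m = m - n := fun n => by ring
  simp only [h5, ArithmeticFunction.cardFactors_apply] at h3 h4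
  exact ⟨h3, h4⟩

end Pool.Agent.Results.MP_b454d1_nt.PalindromesNearSquareRoot
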