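import Mathlib
import Pool.Agent.Run7.h20.MK.WinM
import Pool.Agent.Run7.h794.MK.All

/-!
# Goldbach representations `n = p + q` with `p` in a given thin set of numbers of the size of `√n`

Let `S` be an arbitrary finite set of natural numbers inside of an interval of a length `H ≥ N ^ (1/3) log ^ C N` below
`N / log ^ C N` whose additive energy of some order `r` is nearly minimal, `H * energy r S ≤ log ^ A N * |S| ^ (2 r)`. For instance
(`r = 1`) every set `S` of at least `√N / log ^ A N` primes between `√N` and `2 √N`; such primes `p` satisfy `√n < p < 4 √n` for all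
`N / 4 < n < N`. For all but `N / log ^ U N` of the `n ≤ N` the number of the `s ∈ S` for which `n - s` is prime is determined by
the number of the `s ∈ S` for which `n - s` has no prime factor `≤ z`, `z` a power of `log N`.
-/

set_option autoImplicit false

namespace Pool.Agent.Results.MP_b454d1_nt.ThinSetsSmallSummand

open Finset

/-- The additive energy of order `r` of `S`: the number of pairs `v, w` of vectors of `r` members of `S` with
`v_1 + ... + v_r = w_1 + ... + w_r`. -/
def energy (r : ℕ) (S : Finset ℕ) : ℕ :=
  (((Fintype.piFinset fun _ : Fin r => S) ×ˢ (Fintype.piFinset fun _ : Fin r => S)).filter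
    (fun q => ∑ i, q.1 i = ∑ i, q.2 i)).card

/-- The number of the `s ∈ S`, `s < n`, for which `n - s` is prime: if `S` consists of primes, this is the number of the
representations `n = s + q` as a sum of a prime of `S` and a prime `q`. -/
def representations (S : Finset ℕ) (n : ℕ) : ℕ := (S.filter (fun s => s < n ∧ (n - s).Prime)).card

/-- The number of the `s ∈ S`, `s < n`, for which `n - s` has no prime factor `≤ z`. -/
def rough (z : ℕ) (S : Finset ℕ) (n : ℕ) : ℕ :=
  (S.filter (fun s => s < n ∧ ∀ p ∈ range (z + 1), p.Prime → ¬ p ∣ n - s)).card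

/-- The product of `1 - 1 / p` over the primes `p ≤ z`. -/
noncomputable def V (z : ℕ) : ℝ := ∏ p ∈ (Icc 1 z).filter Nat.Prime, (1 - 1 / (p : ℝ))

open Classical in
/-- For all `r`, `A`, `U` there are `C` and `B` such that for every `E`, for all large `N` and all `z` between `log ^ B N` and
`log ^ E N` the following holds. Let `S` be a nonempty finite set of natural numbers inside of an interval `[a, a + H]` with
`N ^ (1/3) log ^ C N ≤ H` and `(a + H) log ^ C N ≤ N` whose additive energy of order `r` is at most
`log ^ A N * |S| ^ (2 r) / H`. Then for all but at most `N / log ^ U N` of the natural numbers `n ≤ N` the number of the `s ∈ S`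
for which `n - s` is prime, multiplied by `log n`, differs from the number of the `s ∈ S` for which `n - s` has no prime factor
`≤ z`, divided by `V z`, by at most `|S| / log ^ U N`. -/
theorem result (r A U : ℕ) : ∃ C B : ℕ, ∀ E : ℕ, ∃ N₀ : ℕ, ∀ N : ℕ, N₀ ≤ N → ∀ z : ℕ,
    Real.log N ^ B ≤ z → (z : ℝ) ≤ Real.log N ^ E → ∀ S : Finset ℕ, S.Nonempty → ∀ a H : ℕ,
    (N : ℝ) ^ (1 / 3 : ℝ) * Real.log N ^ C ≤ H → ((a + H : ℕ) : ℝ) * Real.log N ^ C ≤ N → (∀ s ∈ S, a ≤ s ∧ s ≤ a + H) →
    (H : ℝ) * energy r S ≤ Real.log N ^ A * (S.card : ℝ) ^ (2 * r) →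
    (((Icc 1 N).filter (fun n : ℕ => (S.card : ℝ) / Real.log N ^ U <
      |(representations S n : ℝ) * Real.log n - (rough z S n : ℝ) / V z|)).card : ℝ) ≤ N / Real.log N ^ U :=
  Pool.Agent.Run7.h20.MK.ene_windowsM Pool.Agent.Run7.h794.MK.arc_all r A U

end Pool.Agent.Results.MP_b454d1_nt.ThinSetsSmallSummand
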